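import Pool.Agent.W46.HM.Stm

/-!
# The two-ends decomposition (assembly)
-/

set_option autoImplicit false

open Finset
open scoped Classical

namespace Pool.Agent.W253.HM
open Pool.Agent.W904.AK Pool.Agent.W46.HD Pool.Agent.W46.HM

/-- averaging over the classes of a map -/
theorem class_avg {n : ℕ} (μ : Fin n → ℝ) (hμ : ∀ s, 0 ≤ μ s) {α : Type} [DecidableEq α]
    (f : Fin n → α) (F : Fin n → ℝ) (B : ℝ)
    (h : ∀ s, ∑ z, (if f z = f s then μ z * F z else 0) ≤
      B * ∑ z, (if f z = f s then μ z else 0)) :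
    ∑ x, μ x * F x ≤ B * ∑ x, μ x := by
  set w : Fin n → ℝ := fun s => ∑ z, (if f z = f s then μ z else 0) with hw
  have hw0 : ∀ s, 0 ≤ w s := fun s => Finset.sum_nonneg fun z _ => by
    split_ifs
    exacts [hμ z, le_rfl]
  have hwle : ∀ s, μ s ≤ w s := by
    intro s
    have h1 : (if f s = f s then μ s else 0) ≤ w s :=
      Finset.single_le_sum (f := fun z => if f z = f s then μ z else 0)
        (fun z _ => by
          show (0 : ℝ) ≤ if f z = f s then μ z else 0
          split_ifs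
          exacts [hμ z, le_rfl]) (Finset.mem_univ s)
    simpa using h1
  have h1 : ∀ x, μ x * F x = ∑ s, (if f x = f s then (μ s / w s) * (μ x * F x) else 0) := by
    intro x
    have h2 : ∀ s, (if f x = f s then (μ s / w s) * (μ x * F x) else 0) =
        (if f s = f x then μ s else 0) * ((μ x * F x) / w x) := by
      intro s
      by_cases hs : f x = f s
      · have hws : w s = w x := by
          simp only [hw]
          refine Finset.sum_congr rfl fun z _ => ?_
          rw [hs]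
        rw [if_pos hs, if_pos hs.symm, hws]
        ring
      · rw [if_neg hs, if_neg fun h => hs h.symm, zero_mul]
    rw [Finset.sum_congr rfl fun s _ => h2 s, ← Finset.sum_mul]
    by_cases hx : w x = 0
    · have hx0 : μ x = 0 := le_antisymm ((hwle x).trans hx.le) (hμ x)
      rw [hx0, hx]
      simp
    · have : ∑ s, (if f s = f x then μ s else 0) = w x := rfl
      rw [this]
      field_simp
  have h3 : ∑ x, μ x * F x =
      ∑ s, (μ s / w s) * ∑ x, (if f x = f s then μ x * F x else 0) := by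
    rw [Finset.sum_congr rfl fun x _ => h1 x, Finset.sum_comm]
    refine Finset.sum_congr rfl fun s _ => ?_
    rw [Finset.mul_sum]
    refine Finset.sum_congr rfl fun x _ => ?_
    split_ifs
    · rfl
    · rw [mul_zero]
  rw [h3, Finset.mul_sum]
  refine Finset.sum_le_sum fun s _ => ?_
  by_cases hs : w s = 0
  · have hs0 : μ s = 0 := le_antisymm ((hwle s).trans hs.le) (hμ s)
    rw [hs0]
    simp
  · have hs1 : 0 < w s := lt_of_le_of_ne (hw0 s) (Ne.symm hs)
    calc (μ s / w s) * ∑ x, (if f x = f s then μ x * F x else 0)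
        ≤ (μ s / w s) * (B * w s) :=
          mul_le_mul_of_nonneg_left (h s) (div_nonneg (hμ s) (hw0 s))
      _ = B * μ s := by field_simp

/-- the truncated logarithm does not see the difference between `|k|` and `max 1 |k|` -/
theorem max_log (a b : ℕ) (L : ℝ) (hL : 1 ≤ L) :
    max 0 (Real.log (|(a : ℝ) - (b : ℝ)| / L)) =
      max 0 (Real.log (max 1 |(a : ℝ) - (b : ℝ)| / L)) := by
  by_cases h : a = b
  · subst h
    have h1 : Real.log (1 / L) ≤ 0 := by
      refine Real.log_nonpos (by positivity) ?_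
      rw [div_le_one (by linarith)]
      exact hL
    simp only [sub_self, abs_zero, zero_div, Real.log_zero, max_self]
    rw [max_eq_left (zero_le_one' ℝ), max_eq_left h1]
  · have h1 : (1 : ℝ) ≤ |(a : ℝ) - (b : ℝ)| := by
      have h2 : (1 : ℤ) ≤ |(a : ℤ) - (b : ℤ)| := by
        apply Int.one_le_abs
        omega
      exact_mod_cast h2
    rw [max_eq_right h1]

theorem abs_log (M L : ℝ) (hM : 0 < M) (hL : 0 < L) :
    |Real.log M - Real.log L| = max 0 (Real.log (M / L)) + max 0 (Real.log (L / M)) := by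
  rw [Real.log_div hM.ne' hL.ne', Real.log_div hL.ne' hM.ne']
  rcases le_total (Real.log M) (Real.log L) with h | h
  · rw [abs_of_nonpos (by linarith), max_eq_left (by linarith), max_eq_right (by linarith)]
    ring
  · rw [abs_of_nonneg (by linarith), max_eq_right (by linarith), max_eq_left (by linarith)]
    ring

theorem TE (hGR : S_GR) (hSUM : S_TESUM) (hSH : S_SHELL) : S_TE := by
  intro ε hε hε1
  set e : ℝ := ε / 2 with he
  have he0 : 0 < e := by positivity
  have he1 : e < 1 := by linarith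
  obtain ⟨B1, hB1, hSUM⟩ := hSUM e he0 he1
  obtain ⟨C1, hC1, hSH⟩ := hSH e he0
  have hl3 : 0 ≤ Real.log 3 := Real.log_nonneg (by norm_num)
  have hl2 : 0 ≤ Real.log 2 := Real.log_nonneg (by norm_num)
  refine ⟨B1 + (Real.log 3 + Real.log 2 + C1), by positivity, ?_⟩
  intro n hn μ hμ
  obtain ⟨lev, tm, hlev, htm, hgr⟩ := hGR e he0 he1 n hn μ hμ.nonneg
  have hsum := hSUM n hn μ hμ.nonneg lev tm htm hgr
  have hl0 : ∀ s, 0 ≤ ∑ z, (if lb lev z = lb lev s then μ z else 0) := fun s =>
    Finset.sum_nonneg fun z _ => by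
      split_ifs
      exacts [hμ.nonneg z, le_rfl]
  refine ⟨lev, hlev, fun s x => (hsum s x).trans
    (mul_le_mul_of_nonneg_right (by linarith) (hl0 s)), ?_⟩
  have hL1 : ∀ y : Fin n, (1 : ℝ) ≤ 2 ^ lev y := fun y => one_le_pow₀ (by norm_num)
  set V : Fin n → Fin n → ℝ := fun x y => ∑ z, (if tm y ≤ tm z ∧
      |((z : ℕ) : ℝ) - (y : ℕ)| ≤ max 1 |((x : ℕ) : ℝ) - (y : ℕ)| then μ z else 0) with hV
  set Ls : Fin n → Fin n → ℝ := fun x y =>
    max 0 (Real.log (|((x : ℕ) : ℝ) - (y : ℕ)| / 2 ^ lev y)) with hLs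
  set Loss : ℝ := ∑ x, ∑ y, μ x * μ y * Ls x y with hLoss
  have hVpos : ∀ x y, μ y ≠ 0 → 0 < V x y := by
    intro x y hy
    have h1 : (if tm y ≤ tm y ∧ |((y : ℕ) : ℝ) - (y : ℕ)| ≤ max 1 |((x : ℕ) : ℝ) - (y : ℕ)|
        then μ y else 0) ≤ V x y :=
      Finset.single_le_sum (f := fun z : Fin n => if tm y ≤ tm z ∧
        |((z : ℕ) : ℝ) - (y : ℕ)| ≤ max 1 |((x : ℕ) : ℝ) - (y : ℕ)| then μ z else 0)
        (fun z _ => by
          show (0 : ℝ) ≤ if tm y ≤ tm z ∧
            |((z : ℕ) : ℝ) - (y : ℕ)| ≤ max 1 |((x : ℕ) : ℝ) - (y : ℕ)| then μ z else 0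
          split_ifs
          exacts [hμ.nonneg z, le_rfl]) (Finset.mem_univ y)
    have h2 : tm y ≤ tm y ∧ |((y : ℕ) : ℝ) - (y : ℕ)| ≤ max 1 |((x : ℕ) : ℝ) - (y : ℕ)| := by
      refine ⟨le_rfl, ?_⟩
      rw [sub_self, abs_zero]
      exact le_max_of_le_left zero_le_one
    rw [if_pos h2] at h1
    exact lt_of_lt_of_le (lt_of_le_of_ne (hμ.nonneg y) (Ne.symm hy)) h1
  have hw : ∀ y, μ y ≠ 0 →
      im μ (lb lev) (lb lev y) = ∑ z, (if tm z = tm y then μ z else 0) := by
    intro y hy
    unfold im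
    refine Finset.sum_congr rfl fun z _ => ?_
    by_cases hz : μ z = 0
    · rw [hz]
      simp
    · by_cases h : tm z = tm y
      · rw [if_pos h, if_pos ((htm z y hz hy).1 h)]
      · rw [if_neg h, if_neg fun h' => h ((htm z y hz hy).2 h')]
  have hkey : ∀ x y, μ y ≠ 0 → -Real.log (im μ (lb lev) (lb lev y)) ≤
      Real.log 3 + Real.log 2 + e * Ls x y + -Real.log (V x y) := by
    intro x y hy
    have hρ : (1 : ℝ) ≤ max 1 |((x : ℕ) : ℝ) - (y : ℕ)| := le_max_left _ _
    have h1 : V x y ≤ 3 * (2 * max 1 |((x : ℕ) : ℝ) - (y : ℕ)| / 2 ^ lev y) ^ e *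
        im μ (lb lev) (lb lev y) := by
      rw [hw y hy]
      exact hgr y hy y _ hρ
    have hV0 := hVpos x y hy
    have hL := hL1 y
    have hbase : 0 < 2 * max 1 |((x : ℕ) : ℝ) - (y : ℕ)| / 2 ^ lev y := by positivity
    have hw0 : 0 < im μ (lb lev) (lb lev y) := by
      by_contra hcon
      have h2 : 3 * (2 * max 1 |((x : ℕ) : ℝ) - (y : ℕ)| / 2 ^ lev y) ^ e *
          im μ (lb lev) (lb lev y) ≤ 0 :=
        mul_nonpos_of_nonneg_of_nonpos (by positivity) (not_lt.1 hcon)
      linarith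
    have hpow : 0 < (2 * max 1 |((x : ℕ) : ℝ) - (y : ℕ)| / 2 ^ lev y) ^ e :=
      Real.rpow_pos_of_pos hbase e
    have h3 := Real.log_le_log hV0 h1
    rw [Real.log_mul (by positivity) hw0.ne', Real.log_mul (by norm_num) hpow.ne',
      Real.log_rpow hbase, mul_div_assoc, Real.log_mul (by norm_num) (by positivity)] at h3
    have h4 : Real.log (max 1 |((x : ℕ) : ℝ) - (y : ℕ)| / 2 ^ lev y) ≤ Ls x y := by
      simp only [hLs]
      rw [max_log x y _ hL]
      exact le_max_right _ _
    have h5 : e * (Real.log 2 + Real.log (max 1 |((x : ℕ) : ℝ) - (y : ℕ)| / 2 ^ lev y)) ≤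
        Real.log 2 + e * Ls x y := by
      have h6 := mul_le_mul_of_nonneg_left h4 he0.le
      nlinarith
    linarith
  -- the entropy
  have hH : H μ (lb lev) ≤ Real.log 3 + Real.log 2 + e * Loss +
      ∑ x, μ x * ∑ y, μ y * -Real.log (V x y) := by
    have h1 : H μ (lb lev) = ∑ x, μ x * ∑ y, μ y * -Real.log (im μ (lb lev) (lb lev y)) := by
      rw [← Finset.sum_mul, hμ.total, one_mul]
      rfl
    have h2 : Real.log 3 + Real.log 2 + e * Loss + ∑ x, μ x * ∑ y, μ y * -Real.log (V x y) =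
        ∑ x, μ x * ∑ y, μ y * (Real.log 3 + Real.log 2 + e * Ls x y + -Real.log (V x y)) := by
      have h3 : ∀ x, μ x * ∑ y, μ y * (Real.log 3 + Real.log 2 + e * Ls x y + -Real.log (V x y)) =
          μ x * (Real.log 3 + Real.log 2) + e * (∑ y, μ x * μ y * Ls x y) +
            μ x * ∑ y, μ y * -Real.log (V x y) := by
        intro x
        have h4 : ∑ y, μ y * (Real.log 3 + Real.log 2 + e * Ls x y + -Real.log (V x y)) =
            (∑ y, μ y) * (Real.log 3 + Real.log 2) + e * (∑ y, μ y * Ls x y) +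
              ∑ y, μ y * -Real.log (V x y) := by
          rw [Finset.sum_mul, Finset.mul_sum, ← Finset.sum_add_distrib, ← Finset.sum_add_distrib]
          refine Finset.sum_congr rfl fun y _ => ?_
          ring
        have h5 : ∑ y, μ x * μ y * Ls x y = μ x * ∑ y, μ y * Ls x y := by
          rw [Finset.mul_sum]
          refine Finset.sum_congr rfl fun y _ => ?_
          ring
        rw [h4, h5, hμ.total]
        ring
      rw [Finset.sum_congr rfl fun x _ => h3 x, Finset.sum_add_distrib, Finset.sum_add_distrib,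
        ← Finset.sum_mul, hμ.total, ← Finset.mul_sum, one_mul]
    rw [h1, h2]
    refine Finset.sum_le_sum fun x _ => mul_le_mul_of_nonneg_left ?_ (hμ.nonneg x)
    refine Finset.sum_le_sum fun y _ => ?_
    by_cases hy : μ y = 0
    · rw [hy]
      simp
    · exact mul_le_mul_of_nonneg_left (hkey x y hy) (hμ.nonneg y)
  -- the shells
  have hpsi : ∀ x y : Fin n, Real.log ((2 : ℝ) ^ lev x / max 1 |((x : ℕ) : ℝ) - (y : ℕ)|) =
      psi (2 ^ lev x) x y := by
    intro x y
    unfold psi
    push_cast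
    rfl
  have hsh : ∀ x, ∑ y, μ y * -Real.log (V x y) ≤
      C1 + e * ∑ y, μ y * (Ls y x + max 0 (psi (2 ^ lev x) x y)) := by
    intro x
    refine (hSH n hn μ hμ tm x (Real.log ((2 : ℝ) ^ lev x))).trans ?_
    refine add_le_add le_rfl (mul_le_mul_of_nonneg_left ?_ he0.le)
    refine Finset.sum_le_sum fun y _ => mul_le_mul_of_nonneg_left ?_ (hμ.nonneg y)
    have hL := hL1 x
    rw [abs_log _ _ (lt_of_lt_of_le one_pos (le_max_left _ _)) (by positivity), hpsi x y]
    refine add_le_add ?_ le_rfl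
    simp only [hLs]
    rw [abs_sub_comm ((y : ℕ) : ℝ) ((x : ℕ) : ℝ), max_log x y _ hL]
  have hpsum : ∀ y : Fin n, ∑ x, μ x * max 0 (psi (2 ^ lev x) x y) ≤ B1 := by
    intro y
    have h1 := class_avg μ hμ.nonneg (lb lev) (fun x : Fin n => max 0 (psi (2 ^ lev x) x y)) B1
      (fun s => by
        refine le_trans (le_of_eq ?_) (hsum s y)
        refine Finset.sum_congr rfl fun z _ => ?_
        by_cases hz : lb lev z = lb lev s
        · rw [if_pos hz, if_pos hz]
          have : lev z = lev s := congrArg Prod.fst hz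
          rw [this]
        · rw [if_neg hz, if_neg hz])
    rwa [hμ.total, mul_one] at h1
  have htot : ∑ x, μ x * ∑ y, μ y * -Real.log (V x y) ≤ C1 + e * (Loss + B1) := by
    have h1 : ∑ x, μ x * ∑ y, μ y * -Real.log (V x y) ≤
        ∑ x, μ x * (C1 + e * ∑ y, μ y * (Ls y x + max 0 (psi (2 ^ lev x) x y))) :=
      Finset.sum_le_sum fun x _ => mul_le_mul_of_nonneg_left (hsh x) (hμ.nonneg x)
    refine h1.trans ?_
    have h2 : ∑ x, μ x * (C1 + e * ∑ y, μ y * (Ls y x + max 0 (psi (2 ^ lev x) x y))) =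
        C1 + e * ((∑ x, ∑ y, μ y * μ x * Ls y x) +
          ∑ x, ∑ y, μ y * (μ x * max 0 (psi (2 ^ lev x) x y))) := by
      have h3 : ∀ x, μ x * (C1 + e * ∑ y, μ y * (Ls y x + max 0 (psi (2 ^ lev x) x y))) =
          μ x * C1 + e * ((∑ y, μ y * μ x * Ls y x) +
            ∑ y, μ y * (μ x * max 0 (psi (2 ^ lev x) x y))) := by
        intro x
        have h4 : μ x * ∑ y, μ y * (Ls y x + max 0 (psi (2 ^ lev x) x y)) =
            (∑ y, μ y * μ x * Ls y x) + ∑ y, μ y * (μ x * max 0 (psi (2 ^ lev x) x y)) := by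
          rw [Finset.mul_sum, ← Finset.sum_add_distrib]
          refine Finset.sum_congr rfl fun y _ => ?_
          ring
        rw [← h4]
        ring
      rw [Finset.sum_congr rfl fun x _ => h3 x, Finset.sum_add_distrib, ← Finset.sum_mul,
        hμ.total, one_mul, ← Finset.mul_sum, Finset.sum_add_distrib]
    rw [h2]
    have h5 : ∑ x, ∑ y, μ y * μ x * Ls y x = Loss := by
      rw [hLoss, Finset.sum_comm]
    have h6 : ∑ x, ∑ y, μ y * (μ x * max 0 (psi (2 ^ lev x) x y)) ≤ B1 := by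
      rw [Finset.sum_comm]
      calc ∑ y, ∑ x, μ y * (μ x * max 0 (psi (2 ^ lev x) x y))
          = ∑ y, μ y * ∑ x, μ x * max 0 (psi (2 ^ lev x) x y) := by
            refine Finset.sum_congr rfl fun y _ => ?_
            rw [Finset.mul_sum]
        _ ≤ ∑ y, μ y * B1 := Finset.sum_le_sum fun y _ =>
            mul_le_mul_of_nonneg_left (hpsum y) (hμ.nonneg y)
        _ = B1 := by rw [← Finset.sum_mul, hμ.total, one_mul]
    rw [h5]
    have h7 := mul_le_mul_of_nonneg_left h6 he0.le
    linarith [mul_add e Loss B1, mul_add e Loss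
      (∑ x, ∑ y, μ y * (μ x * max 0 (psi (2 ^ lev x) x y)))]
  have hfin : ε * Loss = 2 * (e * Loss) := by
    rw [he]
    ring
  have heB : e * B1 ≤ B1 := by nlinarith
  show H μ (lb lev) ≤ B1 + (Real.log 3 + Real.log 2 + C1) + ε * Loss
  rw [hfin]
  linarith [mul_add e Loss B1]

end Pool.Agent.W253.HM
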